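import Mathlib
import Pool.Agent.H18.Ascoli.AlephZero

/-!
# Every Ascoli `ℵ₀`-space is a `k_ℝ`-space

Key lemma: in an Ascoli space the limit `ψ` of an increasing sequence `ψ_n` of continuous
functions with values in `[0,1]` is continuous once it is continuous on compact sets. Indeed, for
increasing sequences `q, r` in `[0,1]` let `I(q, r)` be the sum over `n` of the lengths of
`(q_n, q_{n+1}] ∩ (r_n, r_{n+1}]`. Then `q ↦ I(q, (ψ_n(·)))` is a continuous map from the compact
space of increasing sequences to `C(X, ℝ)` with the compact-open topology, and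
`ψ(x) - ψ_0(x) = I((ψ_n(x)), (ψ_n(x)))` is the value at `x` of a continuous function which depends
continuously on `x` and stays in a compact set of `C(X, ℝ)`.
-/

namespace Pool.Agent.Results.MP_1cbded_gt.AscoliAlephZeroIsKR

/-- `X` is an `ℵ₀`-space: it is regular and Hausdorff and has a countable `k`-network, that is, a
countable family `N` of subsets such that for every compact `K` and open `U ⊇ K` some finite
subfamily `F` of `N` satisfies `K ⊆ ⋃ F ⊆ U`. -/
def IsAlephZero (X : Type*) [TopologicalSpace X] : Prop :=
  T3Space X ∧ ∃ N : Set (Set X), N.Countable ∧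
    ∀ K U : Set X, IsCompact K → IsOpen U → K ⊆ U →
      ∃ F : Set (Set X), F ⊆ N ∧ F.Finite ∧ K ⊆ ⋃₀ F ∧ ⋃₀ F ⊆ U

/-- `X` is Ascoli: for every compact set `K` of `C(X, ℝ)` with the compact-open topology, the
evaluation map `X × K → ℝ` is continuous. -/
def IsAscoli (X : Type*) [TopologicalSpace X] : Prop :=
  ∀ K : Set C(X, ℝ), IsCompact K → Continuous fun p : X × K => (p.2 : C(X, ℝ)) p.1

/-- `X` is a `k_ℝ`-space: every real function on `X` whose restriction to each compact subset is
continuous is continuous. -/
def IsKR (X : Type*) [TopologicalSpace X] : Prop :=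
  ∀ f : X → ℝ, (∀ K : Set X, IsCompact K → ContinuousOn f K) → Continuous f

/-- Every Ascoli `ℵ₀`-space is a `k_ℝ`-space. -/
theorem result : ∀ (X : Type*) [TopologicalSpace X], IsAlephZero X → IsAscoli X → IsKR X := by
  intro X _ hX hA
  have := hX.1
  exact Pool.Agent.H18.Ascoli.isKR_of_isAscoli hX.2 hA

end Pool.Agent.Results.MP_1cbded_gt.AscoliAlephZeroIsKR
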