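import Mathlib
import Pool.Agent.H18.Ascoli.NotKR
import Pool.Agent.H18.Ascoli.IsAscoliE

/-!
# A countable Ascoli space which is not a `k_ℝ`-space

The example is the set of all finite chains of the binary tree. A set `U` of chains is open in an
auxiliary topology if for every `σ ∈ U` the chains `σ ∪ {t}` lie in `U` for all `t` in a dense
upward closed set of nodes above `σ`, and for all increasing sequences `t₀ < u₀ < t₁ < u₁ < ⋯`
above `σ` the chains `σ ∪ {t_k, u_k}` lie in `U` for almost all `k`. The topology of the example
is the completely regular modification of the auxiliary one. The parity of the number of elements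
of a chain is continuous on compact sets and not continuous.
-/

namespace Pool.Agent.Results.MP_1cbded_gt.CosmicAscoliNotKR

/-- `X` is cosmic: it is regular and Hausdorff and has a countable network. -/
def IsCosmic (X : Type*) [TopologicalSpace X] : Prop :=
  T3Space X ∧ ∃ N : Set (Set X), N.Countable ∧
    ∀ U : Set X, IsOpen U → ∀ x ∈ U, ∃ s ∈ N, x ∈ s ∧ s ⊆ U

/-- `X` is Ascoli: for every compact set `K` of `C(X, ℝ)` with the compact-open topology, the
evaluation map `X × K → ℝ` is continuous. -/
def IsAscoli (X : Type*) [TopologicalSpace X] : Prop :=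
  ∀ K : Set C(X, ℝ), IsCompact K → Continuous fun p : X × K => (p.2 : C(X, ℝ)) p.1

/-- `X` is a `k_ℝ`-space: every real function on `X` whose restriction to each compact subset is
continuous is continuous. -/
def IsKR (X : Type*) [TopologicalSpace X] : Prop :=
  ∀ f : X → ℝ, (∀ K : Set X, IsCompact K → ContinuousOn f K) → Continuous f

/-- There is a countable (hence cosmic) Tychonoff space which is Ascoli and is not a
`k_ℝ`-space. -/
theorem result : ∃ (X : Type) (_ : TopologicalSpace X),
    T35Space X ∧ Countable X ∧ IsCosmic X ∧ IsAscoli X ∧ ¬ IsKR X := by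
  refine ⟨Pool.Agent.H18.Ascoli.E, inferInstance, inferInstance, inferInstance,
    ⟨inferInstance, ?_⟩, Pool.Agent.H18.Ascoli.isAscoli_E, Pool.Agent.H18.Ascoli.not_isKR_E⟩
  refine ⟨Set.range fun x : Pool.Agent.H18.Ascoli.E => {x}, Set.countable_range _, ?_⟩
  intro U _ x hx
  exact ⟨{x}, ⟨x, rfl⟩, rfl, Set.singleton_subset_iff.2 hx⟩

end Pool.Agent.Results.MP_1cbded_gt.CosmicAscoliNotKR
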